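import Mathlib
import Pool.Agent.T2h14.NR.Fin
import Pool.Agent.T2h14.NR.Bridge

/-!
# The noncommutative Tate conjecture for products with abelian varieties of prime dimensions

Let `A i` (`i` in a finite set `I`) be simple abelian varieties over the field with `q` elements, of
dimension `g i`, whose Frobenius endomorphisms `π i` generate fields of degree `2 g i`, with
characteristic polynomials `f i`. Assume that for each `i`

* `A i` is not supersingular;
* either `g i` is an odd prime number and the field `ℚ(π i)` has no imaginary quadratic subfield, or
  `g i` is arbitrary and the Galois representation of the odd functions (`w (q / z) = -w z`) on the
  set of roots of `f i` is irreducible;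

and that the splitting fields of the `f i` are pairwise different.

Let `E` be a field of complex numbers that is normal over `ℚ` and contains the splitting field of none
of the `f i`, and `r < g i` for all `i`. Let `A` be any abelian variety over a field with `q ^ s`
elements, `s > 0`, that is isogenous to a product of powers of the `A i`, and `Z` **any** smooth
projective variety over this field such that the eigenvalues of Frobenius on the cohomology of `Z` and
their conjugates lie, up to powers, in a group generated by the nonzero elements of `E` and `r` numbers.
Let `𝒜` be a smooth proper dg category whose noncommutative motive is a direct summand of that of `Z`.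

**Theorem** (`NCTateForRankOver`, as in the starting files). The Frobenius invariants in the realization
of `perf(A) ⊗ 𝒜` are the products of the classes of finitely many fixed products of divisors on `A` with
those in the realization of `𝒜`, and the noncommutative Tate conjecture for `perf(A) ⊗ 𝒜` is equivalent
to the one for `𝒜`. For instance, for `r = 0`, `Z` may be any variety such that the Galois group of the
field `E` generated by the eigenvalues of Frobenius and their conjugates has none of the Galois groups
of the `f i` as a quotient.

The starting theorems show this for almost all families `f`, with the largest possible Galois groups. For
`Z` a point and prime dimensions it is the theorem of Tankeev on the Tate conjecture for the powers of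
`A i`.

The proof. In prime dimension `l` the Galois group contains an element `τ` which permutes the pairs
`z, q / z` cyclically, and the odd functions are a module over `ℚ[τ]` with two irreducible factors, of
dimensions `1` and `l - 1`; they are not stable under the Galois group, unless the products of the
`t - z` over the two orbits of `τ`, `t ∈ ℤ`, generate an imaginary quadratic subfield of `ℚ(π i)`. So
the representation is irreducible. In general, because the splitting fields are different, every
nonzero stable space of odd functions on the set of all the roots contains all the odd functions on
the roots of one `f j`. This is applied to the exponents of the monomials in the roots that are roots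
of unity (which shows that the angle rank is maximal), to the exponents that are invariant under the
Galois group of `E` (which shows that `z` and `q / z` are conjugate over `E`), and to arbitrary
spaces. Then the criterion `AngleRelations` applies.
-/

set_option autoImplicit false

namespace Pool.Agent.Results.MP_de89cc_ag.PrimeDimensions

open Polynomial Pool.Agent.W521.Descent Pool.Agent.W484.CK Pool.Agent.T2h14.NR.Stm

/-- `weilPolys q g` is the set of monic integral polynomials of degree `2 g` with constant term
`q ^ g` and all roots of absolute value `√q`. -/
theorem result {I : Type} [Fintype I] (q : ℕ) (hq : 1 < q) (g : I → ℕ) (f : I → ℤ[X])
    (hf : ∀ i, f i ∈ weilPolys q (g i)) (hirr : ∀ i, Irreducible ((f i).map (Int.castRingHom ℚ)))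
    (hss : ∀ i, NotSupersingular q (f i))
    (hodd : ∀ i, ((g i).Prime ∧ g i ≠ 2 ∧ NoImaginaryQuadratic (f i)) ∨ IrreducibleOdd q (f i))
    (hsplit : ∀ i j, i ≠ j → splitField (f i) ≠ splitField (f j)) (E : IntermediateField ℚ ℂ)
    [Normal ℚ E] (hE : ∀ i, ¬ splitField (f i) ≤ E) (r : ℕ) (hr : ∀ i, r < g i) :
    NCTateForRankOver E q r f :=
  Pool.Agent.T2h14.NR.ncTateForRankOver_of (fun i => (hf i).1) E hq r
    (Pool.Agent.T2h14.NR.stm_family q hq g f hf hirr hss hodd hsplit E hE r hr)

end Pool.Agent.Results.MP_de89cc_ag.PrimeDimensions
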