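import Mathlib
import Pool.Agent.T2h14.RG.NCMain
import Pool.Agent.T2h14.RG.Mem
import Pool.Agent.T2h14.RG.Count

/-!
# The noncommutative Tate conjecture: abelian varieties times K3 surfaces, Calabi-Yau varieties, ...

Let `W` be a smooth projective variety over the field with `q ^ s` elements whose cohomology is generated
by the classes of algebraic cycles and by **root vectors** for polynomials `f i` of weight `w i`
(`IsRootGenerated`): eigenvectors of Frobenius in `H^(w i)(W)` with eigenvalues `z ^ s`, `f i (z) = 0`,
such that the product of two root vectors with `z z' = q ^ (w i)`, for the same `i`, is a combination of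
classes of algebraic cycles. This is a large class of varieties (part 4):

* abelian varieties (`w i = 1`, by Tate's theorem on divisors);
* all products, with arbitrary multiplicities, of varieties `X i` with simple Frobenius: the cohomology is
  spanned by classes of cycles and by eigenvectors in the middle degree `w i = dim X i` with
  eigenvalues `z ^ s`, `f i (z) = 0`, each of multiplicity one: K3 surfaces, hypersurfaces and complete
  intersections, Calabi-Yau threefolds, curves, ...; here the pairs are algebraic because the graphs
  of the powers of Frobenius on `X i × X i` are;
* products of two varieties with this property, for the disjoint union of the families of polynomials;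
  so all products `A × X 1 ^ (m 1) × ⋯ × X n ^ (m n)`, `A` an abelian variety.

**1. The criterion** (`NoRelations → NCTateForGenerated`). Let `E` be a field of complex numbers and
`r ≥ 0`. Suppose that there are no multiplicative relations between the roots of the `f i` and numbers
which, with their conjugates, lie up to powers in a group generated by `E^*` and `r` numbers, except
those which contain a pair `z, q ^ (w i) / z` of roots of the same `f i` (`NoRelations`). Let `Z` be
**any** smooth projective variety such that the eigenvalues of Frobenius on the cohomology of `Z` and
their conjugates lie, up to powers, in a group generated by `E^*` and `r` numbers, and let `𝒜` be a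
smooth proper dg category whose noncommutative motive is a direct summand `(Z, e)` of that of `Z`. Then
all Tate classes on `W` are combinations of classes of algebraic cycles; the Frobenius invariants in the
realization of `perf(W) ⊗ 𝒜` are the products of the classes of finitely many fixed cycles on `W`
with those in the realization of `𝒜`, in a unique way; and the noncommutative Tate conjecture for
`perf(W) ⊗ 𝒜` is equivalent to the one for `𝒜`.

**2. Explicit families** (`ExplicitFamily → NoRelations`): irreducible polynomials of twice prime degree
without imaginary quadratic fields, or with irreducible odd Galois representation, and different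
splitting fields; the weights may be different.

**3. One hundred percent of every Hodge type, for arbitrary weights.** By Mazur's theorem (Katz's
conjecture; Ogus) the Newton polygon of the characteristic polynomial of Frobenius on the cohomology of
degree `w` lies above the Hodge polygon. Let `h i` be **any** Hodge numbers of weight `w i` and rank
`2 g i`, of level at least `m ≥ 1` (they are not concentrated in the middle), with `g i > r`, and let
`E` be **any** number field; the weights may be different, so the family may contain abelian varieties
(weight one, Mazur's condition is empty) and K3 surfaces and Calabi-Yau threefolds. The polynomials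
which satisfy the conditions of Weil and of Mazur (`weilPolysOfType`) are finite in number, of the exact
order `∏_{k = 1}^g √q ^ (w k - 2 HP(k))`, where `HP` is the Hodge polygon. All tuples `f i` of such
polynomials but a proportion `O(q ^ (-m / 6) log q)` satisfy `NoRelations`, hence the noncommutative
Tate conjecture for all `W` and `Z` as in (1). The constant depends only on the Hodge numbers and `E`.

For weight one this is the theorem of the starting library on abelian varieties. For K3 surfaces
`w = m = 2`, `HP(k) = k - 1`, the proportion of the exceptions is `O(q ^ (-1 / 3) log q)`; for
Calabi-Yau threefolds `w = m = 3`. The polynomials of a Hodge type of weight `≥ 2` are a set of density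
zero among all Weil polynomials of this weight: their coefficients lie in a lattice of large index, a
power of `q`. The proof is a sieve in the product of these lattices (Turan's sieve with primes which
split completely in `E`): there are elements of the Galois group which are trivial on `E` and on all
roots except one pair `z, q ^ (w i) / z` of one polynomial, which they exchange.
-/

set_option autoImplicit false

namespace Pool.Agent.Results.MP_de89cc_ag.RootVectorsHodgeTypes

open Polynomial Pool.Agent.H914 Pool.Agent.H914.VarClass Pool.Agent.W492.BB Pool.Agent.W484.CK
  Pool.Agent.T2h14 Pool.Agent.T2h14.PW.Stm Pool.Agent.T2h14.HT Pool.Agent.T2h14.RG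

/-- **The noncommutative Tate conjecture for varieties generated by root vectors**: the criterion, the
explicit families, one hundred percent of the polynomials of every Hodge type, and the examples:
products of varieties with simple Frobenius, abelian varieties, external products. -/
theorem result :
    (∀ {I : Type} [Fintype I] (q : ℕ), 1 < q → ∀ (w : I → ℕ) (f : I → ℤ[X]), (∀ i, (f i).Monic) →
      ∀ (E : IntermediateField ℚ ℂ) (r : ℕ),
        (NoRelations E q r w f → NCTateForGenerated E q r w f) ∧
          (Normal ℚ E → RG.ExplicitFamily E q r w f → NoRelations E q r w f)) ∧
    (∀ {I : Type} [Fintype I] (w g : I → ℕ) (m r : ℕ) (h : I → ℕ → ℕ), 0 < m → (∀ i, r < g i) →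
      (∀ i, HodgeNumbers (w i) (g i) m (h i)) →
      ∀ (E : IntermediateField ℚ ℂ) [FiniteDimensional ℚ E], ∃ C c : ℝ, 0 < c ∧ ∀ q : ℕ,
        IsPrimePow q →
        (∀ i, (weilPolysOfType q (w i) (g i) (h i)).Finite ∧
          c * hodgeSize q (w i) (g i) (h i) ≤ (weilPolysOfType q (w i) (g i) (h i)).ncard ∧
          ((weilPolysOfType q (w i) (g i) (h i)).ncard : ℝ) ≤
            C * hodgeSize q (w i) (g i) (h i)) ∧
        ({f : I → ℤ[X] | (∀ i, f i ∈ weilPolysOfType q (w i) (g i) (h i)) ∧
          ¬ (NoRelations E q r w f ∧ NCTateForGenerated E q r w f)}.ncard : ℝ) ≤
          C * (Real.log q * (q : ℝ) ^ (-((m : ℝ) / 6))) *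
            ∏ i, ((weilPolysOfType q (w i) (g i) (h i)).ncard : ℝ)) ∧
    ∀ (k : Type) [Field k] (𝒱 : VarClass k) (C : TheoryData.{0, 0, 0} 𝒱 ℚ) [IsChow C]
      (K : Type) [Field K] [CharZero K] (H : WeilTheoryData.{0, 0, 0} C K) [IsWeil H],
      IsStandard H → IsGradedCommutative H → ∀ (q s : ℕ), 1 < q →
        ∀ {I I' : Type} (w : I → ℕ) (f : I → ℤ[X]) (w' : I' → ℕ) (f' : I' → ℤ[X])
          (W W' : 𝒱.Obj) (πW : W ⟶ W) (πW' : W' ⟶ W'),
          ((∃ (X : I → 𝒱.Obj) (π : ∀ i, X i ⟶ X i),
              (∀ i, HasSimpleFrobenius H (π i) q s (w i) (f i)) ∧ IsProductOf X π W πW) →
            (∀ i (z : K), aeval z (f i) = 0 → ∀ n : ℕ, z ^ s ≠ ((q ^ s : ℕ) : K) ^ n) →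
            IsRootGenerated H πW q s w f) ∧
          (IsAbelian H πW q s f → IsRootGenerated H πW q s (fun _ => 1) f) ∧
          (IsRootGenerated H πW q s w f → IsRootGenerated H πW' q s w' f' →
            IsRootGenerated H (prodMap πW πW') q s (Sum.elim w w') (Sum.elim f f')) :=
  ⟨fun q hq w f hf E r => ⟨ncTateForGenerated_of hq hf,
    fun _ h => explicit hq hf h⟩,
  fun w g m r h hm hr hh E _ => count w g m r h hm hr hh E (fun q f => NCTateForGenerated E q r w f)
    fun _ hq _ hf => ncTateForGenerated_of hq hf,
  fun k _ 𝒱 C _ K _ _ H _ hS hcm q s hq I I' w f w' f' W W' πW πW' =>
    ⟨fun ⟨_, _, hX, hW⟩ hne => isRootGenerated_product hX (isStandard_bridge hS) hcm (by omega) hne hW,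
      isRootGenerated_abelian, isRootGenerated_prod (isStandard_bridge hS)⟩⟩

end Pool.Agent.Results.MP_de89cc_ag.RootVectorsHodgeTypes
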