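import Pool.Agent.T3h87.SS.NcT
import Pool.Agent.W484.CK.NCTateMain

/-!
# The noncommutative Tate conjecture: Weil polynomials with coefficients in sparse families, for many prime powers and all number
# fields at the same time

Let `g i` (`i` in a finite set `I`) be positive integers and `n = ∑ g i`. For a prime power `q` a point `x` of `ℤ ^ n` gives monic
polynomials `h i` of degree `g i` and the polynomials `f i = X ^ (g i) h i (X + q / X)`; all Weil `q`-polynomials of degree `2 g i`
are of this form, and by Weil, Honda and Tate they correspond to the isogeny classes of abelian varieties of dimension `g i` over the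
field with `q` elements (up to multiplicities). Let `E` be a number field and `r` an integer smaller than all the `g i`.

The property (`NCTateForRankOver E q r f`): for all `s > 0`, `Q = q ^ s`, all abelian varieties `A` over the field with `Q` elements
which are isogenous to products of powers of abelian varieties coming from the field with `q` elements, with characteristic
polynomials `f i`, all smooth projective `Z` whose Frobenius eigenvalues and their conjugates generate a group of rank at most `r`
modulo the numbers with a power in `E`, and all smooth proper dg categories `𝒜` which are direct summands of the noncommutative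
motive of `Z`: the noncommutative Tate conjecture for `perf(A) ⊗ 𝒜` is equivalent to the one for `𝒜`.

A point `x` is an `Exception` for `E`, `r`, `q` if this property does not hold for the `f i`, although `q` divides none of the numbers
`tr (h i) ^ 2` (that is, the first slopes of the Newton polygons are smaller than `1 / 2`).

The coordinates are independent random members of sparse families of integers, of the six kinds `Kind` (in the file
`Pool.Agent.T3h87.LT.Kinds`): automatic sets (for example missing digits); random integers whose blocks of digits can be exchanged;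
rearrangements of given digits; palindromes; residues with small Fourier coefficients; integer parts of functions of non-integral
order. `Fam` is a random integer, given by finitely many values with weights, with a size; different coordinates may be in families
of different kinds and of very different sizes.

Theorem. (1) There are `e` and `η > 0`, which depend on the kinds only, such that for all `E`, `r` and `Y ≥ Y₀(E, r)` the following
holds for every finite set `Q` of at most `Y ^ η` prime powers, of arbitrary sizes, and every affine map `y ↦ a + M y` with a matrix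
`M` with nonzero determinant, which has at most `Y ^ η` prime factors (for example a multiplication by an arbitrary integer with at
most so many prime factors): the probability that `a + M y` is an exception for some `q ∈ Q` is at most
`Y ^ (-η) ∑ (1 + |log (size of f l)|) ^ e`, where `Y` is a lower bound of the sizes.
(2) There is `A` such that for every sequence `X 0, X 1, ...` of random vectors (with an arbitrary joint distribution) with
coordinates in such families with sizes at least `(i + 1) ^ A` (and at most `exp (Y ^ (1 / A))` for a common lower bound `Y` of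
the sizes of the coordinates of `X i`), all sets `Q i` of at most `i + 1` prime powers and all affine maps `a i`, `M i` such that the
determinant has at most `i + 1` prime factors, almost surely: for ALL number fields `E` and all `r` smaller than the `g i` the
points `a i + M i (X i)` are not exceptions for any `q ∈ Q i`, for all but FINITELY many `i`.

Proof. The criterion of helper521 and helper484 at the primes which split completely in the Galois closure of `E`, pulled back by the
matrix (helper578, `N578/LB`), and a sieve for sparse families: the uniform distribution of sums of local functions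
(`Pool.Agent.T3h87.LT`), where few primes may be omitted.
-/

set_option autoImplicit false

namespace Pool.Agent.Results.MP_de89cc_ag.SparseCoordinates

open Polynomial MeasureTheory Filter Topology Pool.Agent.W484.TB Pool.Agent.W484.CK Pool.Agent.N578.LB
open Pool.Agent.T3h87.LT (Fam Kind)
open Pool.Agent.T3h87.SS (probability HasLaw Growing)

section
variable {I : Type} (g : I → ℕ)

/-- The point `x` is an exception for `E`, `r` and `q`: `q` divides none of the squares of the traces of the polynomials
`h_i = X ^ (g i) + ∑ x_(i,k) X ^ k`, but the property does not hold for the polynomials `f_i = X ^ (g i) h_i(X + q / X)`. -/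
def Exception (E : IntermediateField ℚ ℂ) (r q : ℕ) (x : (Σ i, Fin (g i)) → ℤ) : Prop :=
  (∀ i, ¬ (q : ℤ) ∣ (hpoly g x i).nextCoeff ^ 2) ∧ ¬ NCTateForRankOver E q r (fun i => fpoly q (hpoly g x i))

end

theorem rare {I : Type} [Fintype I] [DecidableEq I] (g : I → ℕ) (hg : ∀ i, 0 < g i) (𝓕 : (Σ i, Fin (g i)) → ℤ → Set Fam)
    (h𝓕 : ∀ l, Kind (𝓕 l)) :
    ∃ (e : ℕ) (η : ℝ), 0 < η ∧ ∀ κ : (Σ i, Fin (g i)) → ℤ, (∀ l, κ l ≠ 0) →
      ∀ E : IntermediateField ℚ ℂ, FiniteDimensional ℚ E → ∀ r : ℕ, (∀ i, r < g i) →
      ∃ Y₀ : ℝ, 1 ≤ Y₀ ∧ ∀ Y : ℝ, Y₀ ≤ Y → ∀ Q : Finset ℕ, (∀ q ∈ Q, IsPrimePow q) → (Q.card : ℝ) ≤ Y ^ η →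
        ∀ M : Matrix (Σ i, Fin (g i)) (Σ i, Fin (g i)) ℤ, M.det ≠ 0 → (M.det.natAbs.primeFactors.card : ℝ) ≤ Y ^ η →
        ∀ (a : (Σ i, Fin (g i)) → ℤ) (f : (Σ i, Fin (g i)) → Fam), (∀ l, f l ∈ 𝓕 l (κ l)) → (∀ l, Y ≤ (f l).size) →
          probability f (fun y => ∃ q ∈ Q, Exception g E r q (a + M.mulVec y)) ≤
            Y ^ (-η) * ∑ l, (1 + |Real.log (f l).size|) ^ e := by
  classical
  obtain ⟨e, ρ, hρ, H⟩ := Pool.Agent.T3h87.SS.weil_rare g hg 𝓕 h𝓕
  refine ⟨e, ρ, hρ, fun κ hκ E hE r hr => ?_⟩
  obtain ⟨Y₀, hY₀, J⟩ := H κ hκ (splitPrimes E) (dense_splitPrimes E)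
  refine ⟨Y₀, hY₀, fun Y hY Q hQ hQc M hM hMc a f hf hsz => ?_⟩
  have hY0 : 0 < Y := by linarith
  have hw : ∀ l, ∀ i ∈ (f l).set, 0 ≤ (f l).wt i := fun l => Pool.Agent.T3h87.SS.kind_nonneg (h𝓕 l) (hκ l) (hf l)
  obtain ⟨s, hs⟩ : ∃ s : ℝ, s = ∑ l, (1 + |Real.log (f l).size|) ^ e := ⟨_, rfl⟩
  have hs0 : 0 ≤ s := by
    rw [hs]
    exact Finset.sum_nonneg fun l _ => by positivity
  rw [← hs]
  refine (Pool.Agent.T3h87.SS.prob_union f hw Q _).trans ?_
  have h1 : ∀ q ∈ Q, probability f (fun y => Exception g E r q (a + M.mulVec y)) ≤ Y ^ (-(2 * ρ)) * s := by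
    intro q hq
    have h2 := J Y hY q (hQ q hq) M hM hMc a f hf hsz
    rw [← hs] at h2
    refine (Pool.Agent.T3h87.SS.probability_mono f hw fun y hy => ?_).trans h2
    refine ⟨hy.1, fun hgood => hy.2 ?_⟩
    exact ncTateForRankOver_of_good g E (hQ q hq).one_lt r hr _ hgood
  refine (Finset.sum_le_sum h1).trans ?_
  rw [Finset.sum_const, nsmul_eq_mul]
  have e1 : Y ^ (-ρ) = Y ^ ρ * Y ^ (-(2 * ρ)) := by
    rw [← Real.rpow_add hY0]
    congr 1
    ring
  rw [e1, mul_assoc]
  exact mul_le_mul_of_nonneg_right hQc (by positivity)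

/-- **Theorem.** Let `g i` be positive integers and let `𝓕 l` be kinds of sparse families, for the coordinates `l` of the points of
`ℤ ^ (∑ g i)`. There are `e`, `η > 0`, `A > 0` such that for all `κ l ≠ 0`:
(1) for all number fields `E` in `ℂ` and all `r` with `r < g i` there is `Y₀` such that for all `Y ≥ Y₀`, all sets `Q` of at most
`Y ^ η` prime powers, all `M`, `a` such that `det M ≠ 0` has at most `Y ^ η` prime factors: for a vector `y` with independent
coordinates in the families `𝓕 l (κ l)` of sizes at least `Y` the probability that `a + M y` is an exception for some `q ∈ Q` is at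
most `Y ^ (-η) ∑ (1 + |log size|) ^ e`;
(2) for all sequences `X i` of such random vectors, which are `Growing A`, and all sequences of sets `Q i` of at most `i + 1` prime
powers and of matrices `M i` and vectors `a i` such that `det (M i) ≠ 0` has at most `i + 1` prime factors, almost surely: for all
number fields `E` in `ℂ` and all `r` with `r < g i` for all `i`, for all but finitely many `i` the point `a i + M i (X i)` is not an
exception for any `q ∈ Q i`. -/
theorem result {I : Type} [Fintype I] [DecidableEq I] (g : I → ℕ) (hg : ∀ i, 0 < g i) (𝓕 : (Σ i, Fin (g i)) → ℤ → Set Fam)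
    (h𝓕 : ∀ l, Kind (𝓕 l)) :
    ∃ (e : ℕ) (η A : ℝ), 0 < η ∧ 0 < A ∧ ∀ κ : (Σ i, Fin (g i)) → ℤ, (∀ l, κ l ≠ 0) →
      (∀ E : IntermediateField ℚ ℂ, FiniteDimensional ℚ E → ∀ r : ℕ, (∀ i, r < g i) →
        ∃ Y₀ : ℝ, 1 ≤ Y₀ ∧ ∀ Y : ℝ, Y₀ ≤ Y → ∀ Q : Finset ℕ, (∀ q ∈ Q, IsPrimePow q) → (Q.card : ℝ) ≤ Y ^ η →
          ∀ M : Matrix (Σ i, Fin (g i)) (Σ i, Fin (g i)) ℤ, M.det ≠ 0 → (M.det.natAbs.primeFactors.card : ℝ) ≤ Y ^ η →
          ∀ (a : (Σ i, Fin (g i)) → ℤ) (f : (Σ i, Fin (g i)) → Fam), (∀ l, f l ∈ 𝓕 l (κ l)) → (∀ l, Y ≤ (f l).size) →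
            probability f (fun y => ∃ q ∈ Q, Exception g E r q (a + M.mulVec y)) ≤
              Y ^ (-η) * ∑ l, (1 + |Real.log (f l).size|) ^ e) ∧
      (∀ (Ω : Type) [MeasurableSpace Ω] (P : Measure Ω) [IsProbabilityMeasure P] (X : ℕ → Ω → (Σ i, Fin (g i)) → ℤ)
        (f : ℕ → (Σ i, Fin (g i)) → Fam), (∀ i l, f i l ∈ 𝓕 l (κ l)) → (∀ i, HasLaw P (X i) (f i)) → Growing A f →
        ∀ (Q : ℕ → Finset ℕ) (M : ℕ → Matrix (Σ i, Fin (g i)) (Σ i, Fin (g i)) ℤ) (a : ℕ → (Σ i, Fin (g i)) → ℤ),
        (∀ i, (∀ q ∈ Q i, IsPrimePow q) ∧ (Q i).card ≤ i + 1 ∧ (M i).det ≠ 0 ∧ (M i).det.natAbs.primeFactors.card ≤ i + 1) →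
          ∀ᵐ w ∂P, ∀ E : IntermediateField ℚ ℂ, FiniteDimensional ℚ E → ∀ r : ℕ, (∀ i, r < g i) →
            ∀ᶠ i in atTop, ∀ q ∈ Q i, ¬ Exception g E r q (a i + (M i).mulVec (X i w))) := by
  obtain ⟨e, η, hη, H⟩ := rare g hg 𝓕 h𝓕
  have hA0 : 0 < 4 / η + 2 * e / η := by positivity
  refine ⟨e, η, 4 / η + 2 * e / η, hη, hA0, fun κ hκ => ⟨H κ hκ,
    fun Ω _ P _ X f hf hX hg' Q M a hQ => ?_⟩⟩
  have hpow : ∀ (i : ℕ) (Y : ℝ), ((i : ℝ) + 1) ^ (4 / η + 2 * e / η) ≤ Y → (i : ℝ) + 1 ≤ Y ^ η := by
    intro i Y hY
    have hi : (1 : ℝ) ≤ (i : ℝ) + 1 := by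
      have : (0 : ℝ) ≤ i := Nat.cast_nonneg i
      linarith
    have h1 : (1 : ℝ) ≤ (4 / η + 2 * e / η) * η := by
      have : (4 / η + 2 * e / η) * η = 4 + 2 * e := by field_simp
      rw [this]
      have : (0 : ℝ) ≤ e := Nat.cast_nonneg e
      linarith
    calc (i : ℝ) + 1 = ((i : ℝ) + 1) ^ (1 : ℝ) := (Real.rpow_one _).symm
      _ ≤ ((i : ℝ) + 1) ^ ((4 / η + 2 * e / η) * η) := Real.rpow_le_rpow_of_exponent_le hi h1
      _ = (((i : ℝ) + 1) ^ (4 / η + 2 * e / η)) ^ η := Real.rpow_mul (by linarith) _ _
      _ ≤ Y ^ η := Real.rpow_le_rpow (by positivity) hY hη.le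
  have key := Pool.Agent.T3h87.SS.ae_all_complex P ℕ
    (fun E r i w => (∀ j, r < g j) → ∀ q ∈ Q i, ¬ Exception g E r q (a i + (M i).mulVec (X i w)))
    (fun E hE r => by
      by_cases hr : ∀ j, r < g j
      · obtain ⟨Y₀, -, J1⟩ := H κ hκ E hE r hr
        filter_upwards [Pool.Agent.T3h87.SS.eventually_good_seq 𝓕 h𝓕 hκ hη le_rfl
          (Bad := fun i y => ∃ q ∈ Q i, Exception g E r q (a i + (M i).mulVec y)) (Y₀ := Y₀)
          (fun i Y hY hYi f' hf' hsz' => J1 Y hY (Q i) (hQ i).1 (le_trans (by exact_mod_cast (hQ i).2.1) (hpow i Y hYi)) (M i)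
            (hQ i).2.2.1 (le_trans (by exact_mod_cast (hQ i).2.2.2) (hpow i Y hYi)) (a i) f' hf' hsz')
          P X f hf hX hg'] with w hw
        filter_upwards [hw] with i hi _ q hq hex
        exact hi ⟨q, hq, hex⟩
      · exact Eventually.of_forall fun w => Eventually.of_forall fun i h => absurd h hr)
  filter_upwards [key] with w hw E hE r hr
  filter_upwards [hw E hE r] with i hi
  exact hi hr

end Pool.Agent.Results.MP_de89cc_ag.SparseCoordinates
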